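import Pool.Agent.H32.CH.Targets

/-! Board ch_modules, module CI. -/

set_option autoImplicit false

namespace Pool.Agent.H3.CH.CI

open Finset Pool.Agent.H32.CH
open scoped Classical

theorem pf_CI (h : T_CE) : T_CI := by
  intro V _ G A v hv
  have h1 := h V G (insert v A) v (mem_insert_self v A)
  rw [erase_insert hv, dg_insert_self, compl_insert', dg_erase_self] at h1
  omega

end Pool.Agent.H3.CH.CI
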