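import Pool.Agent.H32.CH.Targets

/-! Board ch_modules, module GP. -/

set_option autoImplicit false

namespace Pool.Agent.H3.CH.GP

open Finset Pool.Agent.H32.CH
open scoped Classical

theorem pf_GP : T_GP := by
  intro V _ G C n f s hE hw hP
  obtain ⟨hinj, hC, -, hadj⟩ := hE
  obtain ⟨hs, hs1, hs6⟩ := hP
  have hadj' : ∀ i, i < n → ∀ j, j < n → G.Adj (f i) (f j) → j = i + 1 ∨ i = j + 1 := by
    have key : ∀ i j, i < j → j < n → G.Adj (f i) (f j) → j = i + 1 := by
      intro i j hij hj h
      rcases hadj i j hij hj h with h1 | ⟨h1, h2⟩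
      · exact h1
      · by_cases h3 : 3 ≤ n
        · rw [h1, h2] at h
          exact absurd h (hw h3)
        · omega
    intro i hi j hj h
    rcases lt_trichotomy i j with h1 | h1 | h1
    · exact Or.inl (key i j h1 hj h)
    · rw [h1] at h
      exact absurd h (G.loopless.irrefl _)
    · exact Or.inr (key j i h1 hi h.symm)
  have hsn : ∀ i ∈ s, i < n := fun i hi => mem_range.1 (hs hi)
  refine ⟨?_, ?_, ?_⟩
  · rw [hC]
    exact image_subset_image hs
  · intro x hx y hy hxy
    obtain ⟨i, hi, rfl⟩ := mem_image.1 hx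
    obtain ⟨j, hj, rfl⟩ := mem_image.1 hy
    rcases hadj' i (hsn i hi) j (hsn j hj) hxy with h1 | h1
    · exact hs1 i hi (h1 ▸ hj)
    · exact hs1 j hj (h1 ▸ hi)
  · rintro K ⟨hK, ⟨hKne, hKc⟩, -⟩
    by_contra hcard
    set P : Finset ℕ := (range n).filter (fun q => f q ∈ K) with hPdef
    have hmP : ∀ q, q ∈ P ↔ q < n ∧ f q ∈ K := by
      intro q
      rw [hPdef, mem_filter, mem_range]
    have hKP : K ⊆ P.image f := by
      intro x hx
      have h1 := (mem_sdiff.1 (hK hx)).1
      rw [hC] at h1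
      obtain ⟨q, hq, rfl⟩ := mem_image.1 h1
      exact mem_image_of_mem f ((hmP q).2 ⟨mem_range.1 hq, hx⟩)
    have hPc : 6 ≤ P.card := by
      have h1 := card_le_card hKP
      have h2 : (P.image f).card ≤ P.card := card_image_le
      omega
    have hPne : P.Nonempty := card_pos.1 (by omega)
    set a := P.min' hPne with ha
    set b := P.max' hPne with hb
    have haP : a ∈ P := P.min'_mem hPne
    have hbP : b ∈ P := P.max'_mem hPne
    have hsub : P ⊆ Icc a b := fun q hq => mem_Icc.2 ⟨P.min'_le q hq, P.le_max' q hq⟩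
    have hab : a + 5 ≤ b := by
      have h1 := card_le_card hsub
      rw [Nat.card_Icc] at h1
      omega
    have hall : ∀ m, a ≤ m → m ≤ b → m ∈ P := by
      intro m ham hmb
      by_contra hm
      have hma : a ≠ m := fun h => hm (h ▸ haP)
      have hmb' : b ≠ m := fun h => hm (h ▸ hbP)
      have hX := hKc ((P.filter (fun q => q < m)).image f) (by
        intro x hx
        obtain ⟨q, hq, rfl⟩ := mem_image.1 hx
        exact ((hmP q).1 (mem_filter.1 hq).1).2) ⟨f a, mem_image_of_mem f
          (mem_filter.2 ⟨haP, by omega⟩)⟩ (by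
        intro x hx y hy hxy
        obtain ⟨q, hq, rfl⟩ := mem_image.1 hx
        obtain ⟨hqP, hqm⟩ := mem_filter.1 hq
        obtain ⟨q', hq'P, rfl⟩ := mem_image.1 (hKP hy)
        refine mem_image_of_mem f (mem_filter.2 ⟨hq'P, ?_⟩)
        have hne : q' ≠ m := fun h => hm (h ▸ hq'P)
        rcases hadj' q ((hmP q).1 hqP).1 q' ((hmP q').1 hq'P).1 hxy with h1 | h1 <;> omega)
      have hbK : f b ∈ K := ((hmP b).1 hbP).2
      rw [← hX] at hbK
      obtain ⟨q, hq, hqb⟩ := mem_image.1 hbK
      obtain ⟨hqP, hqm⟩ := mem_filter.1 hq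
      have h1 := hinj q ((hmP q).1 hqP).1 b ((hmP b).1 hbP).1 hqb
      omega
    have hbn : b < n := ((hmP b).1 hbP).1
    obtain ⟨i, his, hi1, hi2⟩ := hs6 a (by omega)
    have hiP := hall i hi1 (by omega)
    have hiK := ((hmP i).1 hiP).2
    exact (mem_sdiff.1 (hK hiK)).2 (mem_image_of_mem f his)

end Pool.Agent.H3.CH.GP
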