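import Pool.Agent.H32.CH.Targets

/-! Board ch_modules, module LB: the circulant graphs with the differences 1 and 3. -/

set_option autoImplicit false

namespace Pool.Agent.H3.CH.LB

open Finset Pool.Agent.H32.CH
open scoped Classical

/-- the steps -/
def St (t : ℤ) : Prop := t = 1 ∨ t = -1 ∨ t = 3 ∨ t = -3

theorem St.neg {t : ℤ} (h : St t) : St (-t) := by
  unfold St at *
  omega

/-- the circulant graph with the differences 1 and 3 -/
def cir (n : ℕ) (hn : 9 ≤ n) : SimpleGraph (Fin n) where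
  Adj i j := ∃ t : ℤ, St t ∧ (n : ℤ) ∣ ((j : ℕ) : ℤ) - ((i : ℕ) : ℤ) - t
  symm := ⟨by
    rintro i j ⟨t, ht, hd⟩
    refine ⟨-t, ht.neg, ?_⟩
    have h : ((i : ℕ) : ℤ) - ((j : ℕ) : ℤ) - -t = -(((j : ℕ) : ℤ) - ((i : ℕ) : ℤ) - t) := by ring
    rw [h]
    exact (dvd_neg).2 hd⟩
  loopless := ⟨by
    rintro i ⟨t, ht, hd⟩
    have h : ((i : ℕ) : ℤ) - ((i : ℕ) : ℤ) - t = -t := by ring
    rw [h] at hd
    have h1 : -t = 0 := Int.eq_zero_of_abs_lt_dvd hd (by
      unfold St at ht
      rw [abs_lt]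
      omega)
    unfold St at ht
    omega⟩

variable {n : ℕ} (hn : 9 ≤ n)

/-- the residue class of an integer -/
def pj (x : ℤ) : Fin n := ⟨(x % n).toNat, by
  have h1 := Int.emod_lt_of_pos x (by omega : (0 : ℤ) < n)
  have h2 := Int.emod_nonneg x (by omega : (n : ℤ) ≠ 0)
  omega⟩

theorem pj_val (x : ℤ) : (((pj hn x : Fin n) : ℕ) : ℤ) = x % n := by
  have h2 := Int.emod_nonneg x (by omega : (n : ℤ) ≠ 0)
  exact Int.toNat_of_nonneg h2

theorem pj_dvd (x : ℤ) : (n : ℤ) ∣ (((pj hn x : Fin n) : ℕ) : ℤ) - x := by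
  rw [pj_val]
  refine ⟨-(x / n), ?_⟩
  have h := Int.emod_add_mul_ediv x n
  linear_combination h

theorem dvd_of_pj_eq {x y : ℤ} (h : pj hn x = pj hn y) : (n : ℤ) ∣ x - y := by
  have h1 := pj_dvd hn x
  have h2 := pj_dvd hn y
  rw [h] at h1
  have h3 := dvd_sub h2 h1
  have h4 : (((pj hn y : Fin n) : ℕ) : ℤ) - y - ((((pj hn y : Fin n) : ℕ) : ℤ) - x) = x - y := by
    ring
  rwa [h4] at h3

theorem pj_ne {x y : ℤ} (h : x ≠ y) (h1 : x - y < 9) (h2 : y - x < 9) : pj hn x ≠ pj hn y := by
  intro h3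
  have h4 := dvd_of_pj_eq hn h3
  have h5 := Int.eq_zero_of_abs_lt_dvd h4 (by
    rw [abs_lt]
    omega)
  omega

theorem pj_per (x : ℤ) : pj hn (x + n) = pj hn x := by
  apply Fin.ext
  have h : ((((pj hn (x + n)) : Fin n) : ℕ) : ℤ) = (((pj hn x : Fin n) : ℕ) : ℤ) := by
    rw [pj_val, pj_val, Int.add_emod_right]
  exact_mod_cast h

theorem adj_pj {x y : ℤ} (h : St (y - x)) : (cir n hn).Adj (pj hn x) (pj hn y) := by
  refine ⟨y - x, h, ?_⟩
  have h1 := dvd_sub (pj_dvd hn y) (pj_dvd hn x)
  have h2 : (((pj hn y : Fin n) : ℕ) : ℤ) - y - ((((pj hn x : Fin n) : ℕ) : ℤ) - x) =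
      (((pj hn y : Fin n) : ℕ) : ℤ) - (((pj hn x : Fin n) : ℕ) : ℤ) - (y - x) := by
    ring
  rwa [h2] at h1

theorem deg4 : Deg4 (cir n hn) := by
  intro v
  have hsub : nb (cir n hn) univ v ⊆ {pj hn ((v : ℕ) + 1), pj hn ((v : ℕ) - 1),
      pj hn ((v : ℕ) + 3), pj hn ((v : ℕ) - 3)} := by
    intro w hw
    obtain ⟨t, ht, hd⟩ := (mem_nb.1 hw).2
    have key : w = pj hn ((v : ℕ) + t) := by
      have h1 := pj_dvd hn (((v : ℕ) : ℤ) + t)
      have h2 := dvd_sub hd h1
      have h3 : (((w : ℕ) : ℤ) - ((v : ℕ) : ℤ) - t) -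
          ((((pj hn (((v : ℕ) : ℤ) + t) : Fin n) : ℕ) : ℤ) - (((v : ℕ) : ℤ) + t)) =
          ((w : ℕ) : ℤ) - (((pj hn (((v : ℕ) : ℤ) + t) : Fin n) : ℕ) : ℤ) := by ring
      rw [h3] at h2
      have h4 := w.2
      have h5 := (pj hn (((v : ℕ) : ℤ) + t)).2
      have h6 := Int.eq_zero_of_abs_lt_dvd h2 (by
        rw [abs_lt]
        omega)
      apply Fin.ext
      omega
    simp only [mem_insert, mem_singleton]
    rcases ht with rfl | rfl | rfl | rfl
    · exact Or.inl key
    · exact Or.inr (Or.inl key)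
    · exact Or.inr (Or.inr (Or.inl key))
    · exact Or.inr (Or.inr (Or.inr key))
  exact (card_le_card hsub).trans card_le_four

theorem walk_int {u v : Fin n} (p : (cir n hn).Walk u v) :
    ∃ t : ℤ, (n : ℤ) ∣ ((v : ℕ) : ℤ) - ((u : ℕ) : ℤ) - t ∧ |t| ≤ 3 * p.length ∧
      ∃ k : ℤ, t = p.length + 2 * k := by
  induction p with
  | nil => exact ⟨0, by simp, by simp, 0, by simp⟩
  | @cons u v w h p ih =>
    have h' : (cir n hn).Adj u v := h
    obtain ⟨t, ht, hd⟩ := h'
    obtain ⟨t', hd', ha, k, hk⟩ := ih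
    refine ⟨t + t', ?_, ?_, ?_⟩
    · have h1 := dvd_add hd hd'
      have h2 : ((v : ℕ) : ℤ) - ((u : ℕ) : ℤ) - t + (((w : ℕ) : ℤ) - ((v : ℕ) : ℤ) - t') =
          ((w : ℕ) : ℤ) - ((u : ℕ) : ℤ) - (t + t') := by ring
      rwa [h2] at h1
    · rw [SimpleGraph.Walk.length_cons]
      push_cast
      unfold St at ht
      rw [abs_le] at ha ⊢
      omega
    · rw [SimpleGraph.Walk.length_cons]
      push_cast
      unfold St at ht
      rcases ht with rfl | rfl | rfl | rfl
      · exact ⟨k, by omega⟩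
      · exact ⟨k - 1, by omega⟩
      · exact ⟨k + 1, by omega⟩
      · exact ⟨k - 2, by omega⟩

theorem odd_walk {v : Fin n} (p : (cir n hn).Walk v v) (hp : Odd p.length) :
    n ≤ 3 * p.length := by
  obtain ⟨t, hd, ha, k, hk⟩ := walk_int hn p
  have h1 : ((v : ℕ) : ℤ) - ((v : ℕ) : ℤ) - t = -t := by ring
  rw [h1, dvd_neg] at hd
  obtain ⟨m, hm⟩ := hp
  have h2 : t ≠ 0 := by omega
  have h3 : (n : ℤ) ≤ |t| := Int.le_of_dvd (abs_pos.2 h2) ((dvd_abs _ _).2 hd)
  omega

section colour

variable {c : Fin n → Bool}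

/-- the colour of an integer -/
def cl (c : Fin n → Bool) (x : ℤ) : Bool := c (pj hn x)

theorem reach {x y : ℤ} (h : St (y - x)) (hc : cl hn c x = cl hn c y) :
    (mono (cir n hn) c).Reachable (pj hn x) (pj hn y) :=
  SimpleGraph.Adj.reachable ⟨adj_pj hn h, hc⟩

theorem four {a b d e : ℤ} (hs : ∀ v, Nat.card {w // (mono (cir n hn) c).Reachable v w} < 4)
    (h1 : pj hn a ≠ pj hn b) (h2 : pj hn a ≠ pj hn d) (h3 : pj hn a ≠ pj hn e)
    (h4 : pj hn b ≠ pj hn d) (h5 : pj hn b ≠ pj hn e) (h6 : pj hn d ≠ pj hn e)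
    (r1 : (mono (cir n hn) c).Reachable (pj hn a) (pj hn b))
    (r2 : (mono (cir n hn) c).Reachable (pj hn a) (pj hn d))
    (r3 : (mono (cir n hn) c).Reachable (pj hn a) (pj hn e)) : False := by
  have h := hs (pj hn a)
  rw [Nat.card_eq_fintype_card, Fintype.card_subtype] at h
  have hsub : ({pj hn a, pj hn b, pj hn d, pj hn e} : Finset (Fin n)) ⊆
      univ.filter (fun w => (mono (cir n hn) c).Reachable (pj hn a) w) := by
    intro w hw
    simp only [mem_insert, mem_singleton] at hw
    refine mem_filter.2 ⟨mem_univ _, ?_⟩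
    rcases hw with rfl | rfl | rfl | rfl
    · exact SimpleGraph.Reachable.refl _
    · exact r1
    · exact r2
    · exact r3
  have hc := card_le_card hsub
  have hc4 : ({pj hn a, pj hn b, pj hn d, pj hn e} : Finset (Fin n)).card = 4 := by
    rw [card_insert_of_notMem (by simp [h1, h2, h3]), card_insert_of_notMem (by simp [h4, h5]),
      card_pair h6]
  omega

/-- three consecutive equal colours force three more -/
theorem stepA (hs : ∀ v, Nat.card {w // (mono (cir n hn) c).Reachable v w} < 4) (i : ℤ)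
    (h1 : cl hn c i = cl hn c (i + 1)) (h2 : cl hn c (i + 1) = cl hn c (i + 2)) :
    cl hn c (i + 3) = !(cl hn c i) ∧ cl hn c (i + 4) = !(cl hn c i) ∧
      cl hn c (i + 5) = !(cl hn c i) := by
  have r1 : (mono (cir n hn) c).Reachable (pj hn i) (pj hn (i + 1)) :=
    reach hn (by unfold St; omega) h1
  have r2 : (mono (cir n hn) c).Reachable (pj hn (i + 1)) (pj hn (i + 2)) :=
    reach hn (by unfold St; omega) h2
  have key : ∀ j : ℤ, 3 ≤ j → j ≤ 5 → cl hn c (i + j) = !(cl hn c i) := by
    intro j hj1 hj2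
    by_contra hne
    have heq : cl hn c (i + (j - 3)) = cl hn c (i + j) := by
      have hb : cl hn c (i + j) = cl hn c i := by
        cases hx : cl hn c (i + j) <;> cases hy : cl hn c i <;> simp_all
      rw [hb]
      have hj : j - 3 = 0 ∨ j - 3 = 1 ∨ j - 3 = 2 := by omega
      rcases hj with hj | hj | hj <;> rw [hj]
      · rw [add_zero]
      · exact h1.symm
      · rw [← h2, ← h1]
    have r3 : (mono (cir n hn) c).Reachable (pj hn (i + (j - 3))) (pj hn (i + j)) :=
      reach hn (by unfold St; omega) heq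
    have r4 : (mono (cir n hn) c).Reachable (pj hn i) (pj hn (i + j)) := by
      have hj : j - 3 = 0 ∨ j - 3 = 1 ∨ j - 3 = 2 := by omega
      rcases hj with hj | hj | hj <;> rw [hj] at r3
      · rwa [add_zero] at r3
      · exact r1.trans r3
      · exact (r1.trans r2).trans r3
    exact four hn hs (pj_ne hn (by omega) (by omega) (by omega))
      (pj_ne hn (by omega) (by omega) (by omega)) (pj_ne hn (by omega) (by omega) (by omega))
      (pj_ne hn (by omega) (by omega) (by omega)) (pj_ne hn (by omega) (by omega) (by omega))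
      (pj_ne hn (by omega) (by omega) (by omega)) r1 (r1.trans r2) r4
  exact ⟨key 3 (by omega) (by omega), key 4 (by omega) (by omega), key 5 (by omega) (by omega)⟩

theorem cl_per (x : ℤ) (k : ℕ) : cl hn c (x + k * n) = cl hn c x := by
  induction k with
  | zero => simp
  | succ k ih =>
    rw [← ih]
    unfold cl
    rw [← pj_per hn (x + k * n)]
    congr 2
    push_cast
    ring

/-- no three consecutive equal colours -/
theorem no_triple (hodd : Odd n)
    (hs : ∀ v, Nat.card {w // (mono (cir n hn) c).Reachable v w} < 4) (i : ℤ)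
    (h1 : cl hn c i = cl hn c (i + 1)) (h2 : cl hn c (i + 1) = cl hn c (i + 2)) : False := by
  have key : ∀ k : ℕ, cl hn c (i + 3 * k) = cl hn c (i + 3 * k + 1) ∧
      cl hn c (i + 3 * k + 1) = cl hn c (i + 3 * k + 2) ∧
      (Even k → cl hn c (i + 3 * k) = cl hn c i) ∧
      (Odd k → cl hn c (i + 3 * k) = !(cl hn c i)) := by
    intro k
    induction k with
    | zero =>
      exact ⟨by simpa using h1, by simpa using h2, fun _ => by simp, fun h => by simp at h⟩
    | succ k ih =>
      obtain ⟨i1, i2, i3, i4⟩ := ih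
      obtain ⟨a1, a2, a3⟩ := stepA hn hs (i + 3 * k) i1 i2
      have e0 : i + 3 * ((k + 1 : ℕ) : ℤ) = i + 3 * k + 3 := by push_cast; ring
      have e1 : i + 3 * ((k + 1 : ℕ) : ℤ) + 1 = i + 3 * k + 4 := by push_cast; ring
      have e2 : i + 3 * ((k + 1 : ℕ) : ℤ) + 2 = i + 3 * k + 5 := by push_cast; ring
      rw [e1, e2, e0, a1, a2, a3]
      refine ⟨rfl, rfl, fun h => ?_, fun h => ?_⟩
      · have ho : Odd k := by
          rw [Nat.even_add_one, Nat.not_even_iff_odd] at h
          exact h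
        rw [i4 ho, Bool.not_not]
      · have he : Even k := by
          rw [Nat.odd_add_one, Nat.not_odd_iff_even] at h
          exact h
        rw [i3 he]
  have h3 := (key n).2.2.2 hodd
  have h4 := cl_per hn (c := c) i 3
  have h5 : i + ((3 : ℕ) : ℤ) * n = i + 3 * n := by push_cast; ring
  rw [h5, h3] at h4
  simp at h4

theorem exists_pair (hodd : Odd n) : ∃ i : ℤ, cl hn c i = cl hn c (i + 1) := by
  by_contra hne
  push Not at hne
  have key : ∀ k : ℕ, (Even k → cl hn c k = cl hn c 0) ∧ (Odd k → cl hn c k = !(cl hn c 0)) := by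
    intro k
    induction k with
    | zero => exact ⟨fun _ => by simp, fun h => by simp at h⟩
    | succ k ih =>
      have h1 := hne k
      have h2 : cl hn c (k + 1) = !(cl hn c k) := by
        cases hx : cl hn c (k + 1) <;> cases hy : cl hn c k <;> simp_all
      push_cast
      rw [h2]
      refine ⟨fun h => ?_, fun h => ?_⟩
      · have ho : Odd k := by
          rw [Nat.even_add_one, Nat.not_even_iff_odd] at h
          exact h
        rw [ih.2 ho, Bool.not_not]
      · have he : Even k := by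
          rw [Nat.odd_add_one, Nat.not_odd_iff_even] at h
          exact h
        rw [ih.1 he]
  have h3 := (key n).2 hodd
  have h4 := cl_per hn (c := c) 0 1
  rw [Nat.cast_one, one_mul, zero_add, h3] at h4
  simp at h4

theorem big (hodd : Odd n) : ∃ v, 4 ≤ Nat.card {w // (mono (cir n hn) c).Reachable v w} := by
  by_contra hne
  push Not at hne
  obtain ⟨i, hi⟩ := exists_pair hn (c := c) hodd
  have nt := no_triple hn hodd hne
  have r1 : (mono (cir n hn) c).Reachable (pj hn i) (pj hn (i + 1)) :=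
    reach hn (by unfold St; omega) hi
  have hR : ∃ j : ℤ, (j = 3 ∨ j = 4) ∧
      (mono (cir n hn) c).Reachable (pj hn i) (pj hn (i + j)) := by
    by_cases h3 : cl hn c i = cl hn c (i + 3)
    · exact ⟨3, Or.inl rfl, reach hn (by unfold St; omega) h3⟩
    · have h2 : cl hn c (i + 1) ≠ cl hn c (i + 2) := fun h => nt i hi h
      have h23 : cl hn c (i + 2) = cl hn c (i + 3) := by
        cases hx : cl hn c (i + 2) <;> cases hy : cl hn c (i + 3) <;> cases hz : cl hn c i <;>
          simp_all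
      have h34 : cl hn c (i + 3) ≠ cl hn c (i + 4) := by
        intro h
        refine nt (i + 2) ?_ ?_
        · rw [show i + 2 + 1 = i + 3 by ring]
          exact h23
        · rw [show i + 2 + 1 = i + 3 by ring, show i + 2 + 2 = i + 4 by ring]
          exact h
      have h14 : cl hn c (i + 1) = cl hn c (i + 4) := by
        cases hx : cl hn c (i + 1) <;> cases hy : cl hn c (i + 4) <;>
          cases hz : cl hn c (i + 2) <;> simp_all
      exact ⟨4, Or.inr rfl, r1.trans (reach hn (by unfold St; omega) h14)⟩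
  have hL : ∃ j : ℤ, (j = 2 ∨ j = 3) ∧
      (mono (cir n hn) c).Reachable (pj hn i) (pj hn (i - j)) := by
    by_cases h3 : cl hn c (i + 1) = cl hn c (i - 2)
    · exact ⟨2, Or.inl rfl, r1.trans (reach hn (by unfold St; omega) h3)⟩
    · have h2 : cl hn c (i - 1) ≠ cl hn c i := by
        intro h
        refine nt (i - 1) ?_ ?_
        · rw [show i - 1 + 1 = i by ring]
          exact h
        · rw [show i - 1 + 1 = i by ring, show i - 1 + 2 = i + 1 by ring]
          exact hi
      have h23 : cl hn c (i - 2) = cl hn c (i - 1) := by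
        cases hx : cl hn c (i - 2) <;> cases hy : cl hn c (i - 1) <;> cases hz : cl hn c i <;>
          simp_all
      have h34 : cl hn c (i - 3) ≠ cl hn c (i - 2) := by
        intro h
        refine nt (i - 3) ?_ ?_
        · rw [show i - 3 + 1 = i - 2 by ring]
          exact h
        · rw [show i - 3 + 1 = i - 2 by ring, show i - 3 + 2 = i - 1 by ring]
          exact h23
      have h14 : cl hn c i = cl hn c (i - 3) := by
        cases hx : cl hn c i <;> cases hy : cl hn c (i - 3) <;>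
          cases hz : cl hn c (i - 1) <;> simp_all
      exact ⟨3, Or.inr rfl, reach hn (by unfold St; omega) h14⟩
  obtain ⟨j, hj, rj⟩ := hR
  obtain ⟨l, hl, rl⟩ := hL
  exact four hn hne (pj_ne hn (by omega) (by omega) (by omega))
    (pj_ne hn (by omega) (by omega) (by omega)) (pj_ne hn (by omega) (by omega) (by omega))
    (pj_ne hn (by omega) (by omega) (by omega)) (pj_ne hn (by omega) (by omega) (by omega))
    (pj_ne hn (by omega) (by omega) (by omega)) r1 rj rl

end colour

theorem pf_LB : T_LB := by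
  intro g
  have hn : 9 ≤ 6 * g + 9 := by omega
  refine ⟨6 * g + 9, cir (6 * g + 9) hn, deg4 hn, ?_, ?_⟩
  · intro v p hp
    have h := odd_walk hn p hp
    omega
  · intro c
    exact big hn ⟨3 * g + 4, by ring⟩

end Pool.Agent.H3.CH.LB
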