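import Pool.Agent.H32.CH.Targets

/-! Board ch_modules, module M1. -/

set_option autoImplicit false

namespace Pool.Agent.H3.CH.M1

open Finset Pool.Agent.H32.CH
open scoped Classical

theorem pf_M1 (h1 : T_CE) (h2 : T_CI) : T_M1 := by
  intro V _ G A hd hm
  refine ⟨fun v hv => ?_, fun v hv => ?_⟩
  · have ha := h1 V G A v hv
    have hb := hm (A.erase v)
    have hc := dg_add_compl G A v
    have he := hd v
    omega
  · have ha := h2 V G A v hv
    have hb := hm (insert v A)
    have hc := dg_add_compl G A v
    have he := hd v
    omega

end Pool.Agent.H3.CH.M1
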